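import Pool.Agent.H664.EX.Stm2

/-!
Project EX (helper664), job R2A, by helper870.
-/

set_option autoImplicit false

namespace Pool.Agent.H870.EX

open MvPolynomial Pool.Agent.W996.EC Pool.Agent.Q72.EG Pool.Agent.H664.FH Pool.Agent.H664.EX

/-- `Al` in terms of the algebra generated by the set -/
theorem al_iff {E : Type} [Field E] [Algebra ℂ E] {A : Set E} {f : E} :
    Al A f ↔ IsAlgebraic (Algebra.adjoin ℂ A) f :=
  IntermediateField.isAlgebraic_adjoin_iff

/-- transitivity -/
theorem al_trans {E : Type} [Field E] [Algebra ℂ E] {A B : Set E} {f : E} (h : Al B f)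
    (hB : ∀ b ∈ B, Al A b) : Al A f := by
  rw [al_iff] at h ⊢
  exact h.adjoin_of_forall_isAlgebraic fun x hx => al_iff.mp (hB x hx.1)

theorem al_mem {E : Type} [Field E] [Algebra ℂ E] {A : Set E} {f : E} (h : f ∈ A) : Al A f :=
  al_iff.mpr (isAlgebraic_algebraMap (⟨f, Algebra.subset_adjoin h⟩ : Algebra.adjoin ℂ A))

/-- `x_0, x_1` are independent if `x_2` is algebraic over `ℂ(x_0, x_1)` -/
theorem indep2 {E : Type} [Field E] [Algebra ℂ E] (G : Cv 3 E)
    (h2 : Al {G.x 0, G.x 1} (G.x 2)) : AlgebraicIndependent ℂ ![G.x 0, G.x 1] := by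
  have hx3 : ∀ w : E, (fun i : Fin 2 => ![G.x 0, G.x 1, w] (Fin.castSucc i)) =
      ![G.x 0, G.x 1] := by
    intro w
    funext i
    fin_cases i <;> rfl
  have hGx : G.x = ![G.x 0, G.x 1, G.x 2] := by
    funext i
    fin_cases i <;> rfl
  rw [algebraicIndependent_iff]
  intro g hg
  by_contra hg0
  -- `P` does not involve `X_2`
  have hP : G.P ∣ rename Fin.castSucc g := by
    rw [← G.hx, aeval_rename]
    have : (G.x ∘ Fin.castSucc) = ![G.x 0, G.x 1] := by
      funext i
      fin_cases i <;> rfl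
    rw [this, hg]
  have hne : rename (Fin.castSucc : Fin 2 → Fin 3) g ≠ 0 := by
    intro h
    exact hg0 (rename_injective _ (Fin.castSucc_injective 2) (by rw [h, map_zero]))
  obtain ⟨r, hr⟩ := hP
  have hP0 : G.P ≠ 0 := G.hP.ne_zero
  have hr0 : r ≠ 0 := by
    rintro rfl
    exact hne (by rw [hr, mul_zero])
  have hdeg : degreeOf 2 G.P = 0 := by
    have h1 : degreeOf 2 (rename (Fin.castSucc : Fin 2 → Fin 3) g) = 0 := by
      by_contra hm
      have hm := mem_vars_iff_degreeOf_ne_zero.mpr hm
      have := vars_rename (Fin.castSucc : Fin 2 → Fin 3) g hm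
      rw [Finset.mem_image] at this
      obtain ⟨a, -, ha⟩ := this
      fin_cases a <;> simp at ha
    rw [hr, degreeOf_mul_eq hP0 hr0] at h1
    omega
  have hvars : (2 : Fin 3) ∉ G.P.vars := by
    rw [mem_vars_iff_degreeOf_ne_zero, not_not]
    exact hdeg
  have hPw : ∀ w : E, aeval ![G.x 0, G.x 1, w] G.P = 0 := by
    intro w
    have h0 : aeval G.x G.P = 0 := (G.hx _).mpr dvd_rfl
    rw [← h0]
    refine hom_congr_vars (f₁ := (aeval ![G.x 0, G.x 1, w] : MvPolynomial (Fin 3) ℂ →ₐ[ℂ] E).toRingHom)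
      (f₂ := (aeval G.x : MvPolynomial (Fin 3) ℂ →ₐ[ℂ] E).toRingHom) ?_ ?_ rfl
    · ext c
      simp
    · intro i hi _
      have hi2 : i ≠ 2 := fun h => hvars (h ▸ hi)
      show aeval ![G.x 0, G.x 1, w] (X i) = aeval G.x (X i)
      rw [aeval_X, aeval_X]
      fin_cases i
      · rfl
      · rfl
      · exact absurd rfl hi2
  -- the relation of `x_2`
  rw [al_iff] at h2
  obtain ⟨p, hp0, hp⟩ := h2
  have hrange : Algebra.adjoin ℂ {G.x 0, G.x 1} =
      (aeval ![G.x 0, G.x 1] : MvPolynomial (Fin 2) ℂ →ₐ[ℂ] E).range := by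
    rw [← Algebra.adjoin_range_eq_range_aeval, Matrix.range_cons, Matrix.range_cons,
      Matrix.range_empty, Set.union_empty, Set.singleton_union]
  have hlift : ∀ a : Algebra.adjoin ℂ {G.x 0, G.x 1}, ∃ b : MvPolynomial (Fin 2) ℂ,
      aeval ![G.x 0, G.x 1] b = (a : E) := by
    rintro ⟨a, ha⟩
    rw [hrange] at ha
    exact ha
  choose b hb using hlift
  -- the polynomial
  let H : MvPolynomial (Fin 3) ℂ :=
    ∑ j ∈ Finset.range (p.natDegree + 1), rename Fin.castSucc (b (p.coeff j)) * X 2 ^ j
  have hH : ∀ w : E, aeval ![G.x 0, G.x 1, w] H = Polynomial.aeval w p := by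
    intro w
    rw [Polynomial.aeval_eq_sum_range]
    simp only [H, map_sum, map_mul, map_pow, aeval_X, aeval_rename]
    refine Finset.sum_congr rfl fun j _ => ?_
    have : (![G.x 0, G.x 1, w] ∘ Fin.castSucc : Fin 2 → E) = ![G.x 0, G.x 1] := hx3 w
    rw [this, hb]
    rfl
  have hPH : G.P ∣ H := by
    rw [← G.hx, hGx, hH, hp]
  obtain ⟨s, hs⟩ := hPH
  have hz : ∀ w : E, Polynomial.aeval w p = 0 := by
    intro w
    rw [← hH, hs, map_mul, hPw, zero_mul]
  apply hp0
  have : Infinite E := Infinite.of_injective _ (algebraMap ℂ E).injective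
  have hm : p.map (algebraMap (Algebra.adjoin ℂ {G.x 0, G.x 1}) E) = 0 := by
    apply Polynomial.funext
    intro w
    rw [Polynomial.eval_map, Polynomial.eval_zero]
    exact hz w
  exact (Polynomial.map_eq_zero_iff (by exact Subtype.val_injective)).mp hm

/-- `g` as a polynomial in the last variable -/
noncomputable def th : MvPolynomial (Fin 3 ⊕ Fin 3) ℂ →ₐ[ℂ]
    Polynomial (MvPolynomial (Fin 3 ⊕ Fin 3) ℂ) :=
  aeval (Function.update (fun s => Polynomial.C (X s)) (Sum.inr 2) Polynomial.X)

theorem th_eval {B : Type} [CommRing B] [Algebra ℂ B] (p : Fin 3 ⊕ Fin 3 → B) (w : B)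
    (g : MvPolynomial (Fin 3 ⊕ Fin 3) ℂ) :
    (th g).eval₂ (aeval p : MvPolynomial (Fin 3 ⊕ Fin 3) ℂ →ₐ[ℂ] B).toRingHom w =
      aeval (Function.update p (Sum.inr 2) w) g := by
  induction g using MvPolynomial.induction_on with
  | C c =>
    have : th (C c) = Polynomial.C (C c) := by
      show aeval _ (C c) = _
      rw [aeval_C]
      rfl
    rw [this, Polynomial.eval₂_C]
    simp
  | add p q hp hq => rw [map_add, map_add, Polynomial.eval₂_add, hp, hq]
  | mul_X q i hq =>
    rw [map_mul, map_mul, Polynomial.eval₂_mul, hq, aeval_X]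
    congr 1
    show Polynomial.eval₂ _ w (aeval _ (X i)) = _
    rw [aeval_X]
    by_cases hi : i = Sum.inr 2
    · subst hi
      rw [Function.update_self, Function.update_self, Polynomial.eval₂_X]
    · rw [Function.update_of_ne hi, Function.update_of_ne hi, Polynomial.eval₂_C]
      simp

/-- adding the transcendental coordinate `y_2` -/
theorem pt_ext {E : Type} [Field E] [Algebra ℂ E] (x y : Fin 3 → E) (z w : Fin 3 → ℂ)
    (hy2 : Transcendental (IntermediateField.adjoin ℂ (Set.range x)) (y 2))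
    (h0 : Al (Set.range x) (y 0)) (h1 : Al (Set.range x) (y 1))
    (hpt : ∀ g : MvPolynomial (Fin 3 ⊕ Fin 3) ℂ,
      aeval (Function.update (Sum.elim x y) (Sum.inr 2) 0) g = 0 →
      eval (Function.update (Sum.elim z w) (Sum.inr 2) 0) g = 0) :
    Sum.elim z w ∈ Pt (Sum.elim x y) := by
  intro g hg
  set pE : Fin 3 ⊕ Fin 3 → E := Function.update (Sum.elim x y) (Sum.inr 2) 0 with hpE
  set pC : Fin 3 ⊕ Fin 3 → ℂ := Function.update (Sum.elim z w) (Sum.inr 2) 0 with hpC
  have hE : Function.update pE (Sum.inr 2) (y 2) = Sum.elim x y := by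
    rw [hpE, Function.update_idem]
    exact Function.update_eq_self _ _
  have hC : Function.update pC (Sum.inr 2) (w 2) = Sum.elim z w := by
    rw [hpC, Function.update_idem]
    exact Function.update_eq_self _ _
  -- the coefficients lie in the algebraic closure
  have hal : ∀ s, Al (Set.range x) (pE s) := by
    intro s
    rcases s with i | i
    · have : pE (Sum.inl i) = x i := by
        rw [hpE, Function.update_of_ne (by simp)]
        rfl
      rw [this]
      exact al_mem ⟨i, rfl⟩
    · by_cases hi : i = 2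
      · subst hi
        rw [hpE, Function.update_self]
        exact isAlgebraic_zero
      · have : pE (Sum.inr i) = y i := by
          rw [hpE, Function.update_of_ne (by simpa using hi)]
          rfl
        rw [this]
        fin_cases i
        · exact h0
        · exact h1
        · exact absurd rfl hi
  let K' : IntermediateField (IntermediateField.adjoin ℂ (Set.range x)) E :=
    algebraicClosure (IntermediateField.adjoin ℂ (Set.range x)) E
  have hmem : ∀ a : MvPolynomial (Fin 3 ⊕ Fin 3) ℂ, aeval pE a ∈ K' := by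
    intro a
    induction a using MvPolynomial.induction_on with
    | C c =>
      rw [aeval_C, IsScalarTower.algebraMap_apply ℂ (IntermediateField.adjoin ℂ (Set.range x)) E]
      exact K'.algebraMap_mem _
    | add p q hp hq =>
      rw [map_add]
      exact add_mem hp hq
    | mul_X q i hq =>
      rw [map_mul, aeval_X]
      exact mul_mem hq (mem_algebraicClosure_iff.mpr (hal i))
  have htr : Transcendental K' (y 2) := by
    intro h
    exact hy2 (h.restrictScalars _)
  -- the polynomial
  let r : Polynomial K' := ∑ j ∈ Finset.range ((th g).natDegree + 1),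
    Polynomial.monomial j ⟨aeval pE ((th g).coeff j), hmem _⟩
  have hr : Polynomial.aeval (y 2) r = 0 := by
    have e1 : Polynomial.aeval (y 2) r =
        (th g).eval₂ (aeval pE : MvPolynomial (Fin 3 ⊕ Fin 3) ℂ →ₐ[ℂ] E).toRingHom (y 2) := by
      rw [Polynomial.eval₂_eq_sum_range, map_sum]
      refine Finset.sum_congr rfl fun j _ => ?_
      rw [Polynomial.aeval_monomial]
      rfl
    rw [e1, th_eval, hE, hg]
  have hr0 : r = 0 := by
    by_contra hne
    exact htr ⟨r, hne, hr⟩
  have hcoef : ∀ j ∈ Finset.range ((th g).natDegree + 1), aeval pE ((th g).coeff j) = 0 := by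
    intro j hj
    have h2 : r.coeff j = ⟨aeval pE ((th g).coeff j), hmem _⟩ := by
      simp only [r, Polynomial.finsetSum_coeff, Polynomial.coeff_monomial]
      rw [Finset.sum_ite_eq' _ j]
      rw [if_pos hj]
    rw [hr0, Polynomial.coeff_zero] at h2
    exact (congrArg Subtype.val h2).symm
  have h3 : aeval (Sum.elim z w) g = 0 := by
    rw [← hC, ← th_eval, Polynomial.eval₂_eq_sum_range]
    refine Finset.sum_eq_zero fun j hj => ?_
    have h4 := hpt _ (hcoef j hj)
    have h5 : (aeval pC : MvPolynomial (Fin 3 ⊕ Fin 3) ℂ →ₐ[ℂ] ℂ).toRingHom ((th g).coeff j) = 0 := by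
      show aeval pC ((th g).coeff j) = 0
      rw [MvPolynomial.aeval_eq_eval]
      exact h4
    rw [h5, zero_mul]
  rw [MvPolynomial.aeval_eq_eval] at h3
  exact h3

/-- JOB R2A -/
theorem r2a (h : S_bm) : S_r2a := by
  intro E _ _ G hT0 hT1 hT2 hx2
  have hind := indep2 G hx2
  have hrange : Set.range ![G.x 0, G.x 1] = {G.x 0, G.x 1} := by
    rw [Matrix.range_cons, Matrix.range_cons, Matrix.range_empty, Set.union_empty,
      Set.singleton_union]
  have hxal : ∀ b ∈ Set.range G.x, Al (Set.range ![G.x 0, G.x 1]) b := by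
    rintro b ⟨i, rfl⟩
    rw [hrange]
    fin_cases i
    · exact al_mem (by simp)
    · exact al_mem (by simp)
    · exact hx2
  have h0 : Al (Set.range G.x) (G.y 0) := not_not.mp hT0
  have h1 : Al (Set.range G.x) (G.y 1) := not_not.mp hT1
  obtain ⟨z, q, hq⟩ := h 2 E ![G.x 0, G.x 1] ![G.y 0, G.y 1] {G.x 2} hind
    (by
      intro i
      fin_cases i
      · exact al_trans h0 hxal
      · exact al_trans h1 hxal)
    (by
      intro i
      fin_cases i
      · exact G.hy 0
      · exact G.hy 1)
    (by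
      intro k hk
      rw [Finset.mem_singleton] at hk
      subst hk
      rw [hrange]
      exact hx2)
  refine ⟨![z 0, z 1, q (G.x 2)], pt_ext _ _ _ _ hT2 h0 h1 fun g hg => ?_⟩
  let sub : Fin 3 ⊕ Fin 3 → MvPolynomial ((Fin 2 ⊕ Fin 2) ⊕ ({G.x 2} : Finset E)) ℂ :=
    Sum.elim ![X (Sum.inl (Sum.inl 0)), X (Sum.inl (Sum.inl 1)),
      X (Sum.inr ⟨G.x 2, Finset.mem_singleton_self _⟩)]
      ![X (Sum.inl (Sum.inr 0)), X (Sum.inl (Sum.inr 1)), 0]
  have hsubE : ∀ (B : Type) [CommRing B] [Algebra ℂ B] (p : (Fin 2 ⊕ Fin 2) ⊕ ({G.x 2} : Finset E) → B)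
      (x y : Fin 3 → B), x 0 = p (Sum.inl (Sum.inl 0)) → x 1 = p (Sum.inl (Sum.inl 1)) →
      x 2 = p (Sum.inr ⟨G.x 2, Finset.mem_singleton_self _⟩) → y 0 = p (Sum.inl (Sum.inr 0)) →
      y 1 = p (Sum.inl (Sum.inr 1)) →
      aeval p (aeval sub g) = aeval (Function.update (Sum.elim x y) (Sum.inr 2) 0) g := by
    intro B _ _ p x y e0 e1 e2 e3 e4
    have : (fun s => aeval p (sub s)) = Function.update (Sum.elim x y) (Sum.inr 2) 0 := by
      funext s
      rcases s with i | i
      · rw [Function.update_of_ne (by simp)]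
        fin_cases i
        · simp [sub, e0]
        · simp [sub, e1]
        · simp [sub, e2]
      · fin_cases i
        · rw [Function.update_of_ne (by simp)]
          simp [sub, e3]
        · rw [Function.update_of_ne (by simp)]
          simp [sub, e4]
        · simp [sub]
    rw [← this, ← MvPolynomial.comp_aeval_apply]
  have h6 := hq (aeval sub g) (by
    rw [hsubE E _ G.x G.y rfl rfl rfl rfl rfl]
    exact hg)
  have h7 := hsubE ℂ (Sum.elim (Sum.elim z (fun i => Complex.exp (z i)))
    (fun k : ({G.x 2} : Finset E) => q k)) ![z 0, z 1, q (G.x 2)]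
    (fun i => Complex.exp (![z 0, z 1, q (G.x 2)] i)) rfl rfl rfl rfl rfl
  rw [MvPolynomial.aeval_eq_eval] at h7
  rw [MvPolynomial.aeval_eq_eval] at h7
  exact h7.symm.trans h6

end Pool.Agent.H870.EX
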